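import Pool.Agent.U136.DX.Stm5

set_option autoImplicit false

/-! Project DX, package LIPQ: second derivatives of a polynomial are Lipschitz. -/

namespace Pool.Agent.U770.DX

open MeasureTheory Pool.Agent.N983.RT Pool.Agent.U136.DS Pool.Agent.U136.DX MvPolynomial

theorem pd_deg (P : MvPolynomial (Fin 3) ℝ) (n : ℕ) (h : P.totalDegree ≤ n + 1) (i : Fin 3) :
    (pderiv i P).totalDegree ≤ n := by
  conv_lhs => rw [P.as_sum, map_sum]
  refine totalDegree_finsetSum_le fun v hv => ?_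
  rw [pderiv_monomial]
  by_cases h0 : v i = 0
  · simp [h0]
  · refine (totalDegree_monomial_le _ _).trans ?_
    have h1 := (le_totalDegree hv).trans h
    have h2 : v = (v - Finsupp.single i 1) + Finsupp.single i 1 := by
      ext j
      by_cases hj : j = i
      · subst hj
        simp
        omega
      · simp [Ne.symm hj]
    have h3 : (v.sum fun _ a => a) = ((v - Finsupp.single i 1).sum fun _ a => a) + 1 := by
      conv_lhs => rw [h2]
      rw [Finsupp.sum_add_index' (fun _ => rfl) (fun _ _ _ => rfl), Finsupp.sum_single_index rfl]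
    have h4 : ((v - Finsupp.single i 1).sum fun _ => id) =
      ((v - Finsupp.single i 1).sum fun _ a => a) := rfl
    omega

/-- growth and Lipschitz bound -/
def H (n : ℕ) (P : MvPolynomial (Fin 3) ℝ) : Prop := ∃ K : ℝ, 0 ≤ K ∧ ∀ k k' : Wv,
  ev P k ^ 2 ≤ K * (1 + nsq k + nsq k') ^ n ∧
  (ev P k - ev P k') ^ 2 * (1 + nsq k + nsq k') ≤ K * (1 + nsq k + nsq k') ^ n * nsq (k - k')

theorem nsq_nonneg' (k : Wv) : 0 ≤ nsq k := Finset.sum_nonneg fun _ _ => sq_nonneg _

theorem coord_le (k : Wv) (i : Fin 3) : (k i : ℝ) ^ 2 ≤ nsq k :=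
  Finset.single_le_sum (f := fun i => (k i : ℝ) ^ 2) (fun _ _ => sq_nonneg _) (Finset.mem_univ i)

theorem H_add {n : ℕ} {P Q : MvPolynomial (Fin 3) ℝ} (hP : H n P) (hQ : H n Q) : H n (P + Q) := by
  obtain ⟨A, hA, h1⟩ := hP
  obtain ⟨B, hB, h2⟩ := hQ
  refine ⟨2 * A + 2 * B, by positivity, fun k k' => ?_⟩
  obtain ⟨a1, a2⟩ := h1 k k'
  obtain ⟨b1, b2⟩ := h2 k k'
  have hT : 0 ≤ 1 + nsq k + nsq k' := by
    have := nsq_nonneg' k
    have := nsq_nonneg' k'
    positivity
  have e1 : ∀ x, ev (P + Q) x = ev P x + ev Q x := fun x => by simp [ev]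
  rw [e1, e1]
  constructor
  · have : (ev P k + ev Q k) ^ 2 ≤ 2 * ev P k ^ 2 + 2 * ev Q k ^ 2 := by
      nlinarith [sq_nonneg (ev P k - ev Q k)]
    nlinarith
  · have : (ev P k + ev Q k - (ev P k' + ev Q k')) ^ 2 ≤
        2 * (ev P k - ev P k') ^ 2 + 2 * (ev Q k - ev Q k') ^ 2 := by
      nlinarith [sq_nonneg ((ev P k - ev P k') - (ev Q k - ev Q k'))]
    have := mul_le_mul_of_nonneg_right this hT
    nlinarith

theorem H_C (a : ℝ) : H 0 (C a) := by
  refine ⟨a ^ 2, sq_nonneg a, fun k k' => ?_⟩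
  have e1 : ∀ x, ev (C a) x = a := fun x => by simp [ev]
  rw [e1, e1]
  have := nsq_nonneg' (k - k')
  constructor
  · simp
  · simp only [sub_self, ne_eq, OfNat.ofNat_ne_zero, not_false_eq_true, zero_pow, zero_mul, pow_zero,
      mul_one]
    positivity

theorem H_mono {n m : ℕ} (hnm : n ≤ m) {P : MvPolynomial (Fin 3) ℝ} (hP : H n P) : H m P := by
  obtain ⟨A, hA, h1⟩ := hP
  refine ⟨A, hA, fun k k' => ?_⟩
  obtain ⟨a1, a2⟩ := h1 k k'
  have hT : 1 ≤ 1 + nsq k + nsq k' := by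
    have := nsq_nonneg' k
    have := nsq_nonneg' k'
    linarith
  have hp := mul_le_mul_of_nonneg_left (pow_le_pow_right₀ hT hnm) hA
  exact ⟨a1.trans hp, a2.trans (mul_le_mul_of_nonneg_right hp (nsq_nonneg' _))⟩

theorem H_X {n : ℕ} {P : MvPolynomial (Fin 3) ℝ} (hP : H n P) (i : Fin 3) :
    H (n + 1) (X i * P) := by
  obtain ⟨A, hA, h1⟩ := hP
  refine ⟨4 * A, by positivity, fun k k' => ?_⟩
  obtain ⟨a1, a2⟩ := h1 k k'
  obtain ⟨b1, -⟩ := h1 k' k
  have hk := nsq_nonneg' k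
  have hk' := nsq_nonneg' k'
  have hd := nsq_nonneg' (k - k')
  rw [show 1 + nsq k' + nsq k = 1 + nsq k + nsq k' by ring] at b1
  have ck := coord_le k i
  have ck' := coord_le k' i
  have cd := coord_le (k - k') i
  have cd' : ((k i : ℝ) - k' i) ^ 2 ≤ nsq (k - k') := by simpa using cd
  set T := 1 + nsq k + nsq k' with hTd
  have hT : 1 ≤ T := by linarith
  have hT0 : 0 ≤ T := by linarith
  have hTn : 0 ≤ T ^ n := by positivity
  have e1 : ∀ x, ev (X i * P) x = (x i : ℝ) * ev P x := fun x => by simp [ev]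
  rw [e1, e1]
  have hki : (k i : ℝ) ^ 2 ≤ T := by linarith
  constructor
  · rw [mul_pow]
    calc (k i : ℝ) ^ 2 * ev P k ^ 2 ≤ T * (A * T ^ n) :=
          mul_le_mul hki a1 (sq_nonneg _) hT0
      _ ≤ 4 * A * T ^ (n + 1) := by
          have : 0 ≤ A * T ^ (n + 1) := by positivity
          rw [pow_succ] at this ⊢
          nlinarith
  · have h3 : ((k i : ℝ) * ev P k - (k' i : ℝ) * ev P k') ^ 2 ≤
        2 * ((k i : ℝ) ^ 2 * (ev P k - ev P k') ^ 2) +
          2 * (((k i : ℝ) - k' i) ^ 2 * ev P k' ^ 2) := by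
      have : (k i : ℝ) * ev P k - (k' i : ℝ) * ev P k' =
        (k i : ℝ) * (ev P k - ev P k') + ((k i : ℝ) - k' i) * ev P k' := by ring
      rw [this]
      nlinarith [sq_nonneg ((k i : ℝ) * (ev P k - ev P k') - ((k i : ℝ) - k' i) * ev P k')]
    have h4 : (k i : ℝ) ^ 2 * ((ev P k - ev P k') ^ 2 * T) ≤ T * (A * T ^ n * nsq (k - k')) :=
      mul_le_mul hki a2 (by positivity) hT0
    have h5 : ((k i : ℝ) - k' i) ^ 2 * ev P k' ^ 2 ≤ nsq (k - k') * (A * T ^ n) :=
      mul_le_mul cd' b1 (sq_nonneg _) hd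
    have h6 := mul_le_mul_of_nonneg_right h5 hT0
    have h7 := mul_le_mul_of_nonneg_right h3 hT0
    calc _ ≤ _ := h7
      _ = 2 * ((k i : ℝ) ^ 2 * ((ev P k - ev P k') ^ 2 * T)) +
          2 * (((k i : ℝ) - k' i) ^ 2 * ev P k' ^ 2 * T) := by ring
      _ ≤ 2 * (T * (A * T ^ n * nsq (k - k'))) + 2 * (nsq (k - k') * (A * T ^ n) * T) := by
          linarith
      _ = 4 * A * T ^ (n + 1) * nsq (k - k') := by ring

theorem H_Xp {n : ℕ} {P : MvPolynomial (Fin 3) ℝ} (hP : H n P) (i : Fin 3) (a : ℕ) :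
    H (n + a) (X i ^ a * P) := by
  induction a with
  | zero => simpa using hP
  | succ a ih =>
    have := H_X ih i
    rw [pow_succ']
    simpa [mul_assoc, Nat.add_assoc] using this

theorem H_mon (v : Fin 3 →₀ ℕ) (a : ℝ) (n : ℕ) (h : (v.sum fun _ e => e) ≤ n) :
    H n (monomial v a) := by
  have h1 : monomial v a = X 0 ^ v 0 * (X 1 ^ v 1 * (X 2 ^ v 2 * C a)) := by
    rw [monomial_eq, Finsupp.prod_fintype _ _ (fun i => by simp), Fin.prod_univ_three]
    ring
  have h2 : (v.sum fun _ e => e) = v 0 + v 1 + v 2 := by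
    rw [Finsupp.sum_fintype _ _ (fun i => rfl), Fin.sum_univ_three]
  rw [h1]
  exact H_mono (by omega) (H_Xp (H_Xp (H_Xp (H_C a) 2 (v 2)) 1 (v 1)) 0 (v 0))

theorem H_deg (P : MvPolynomial (Fin 3) ℝ) (n : ℕ) (h : P.totalDegree ≤ n) : H n P := by
  rw [P.as_sum]
  have : ∀ s : Finset (Fin 3 →₀ ℕ), s ⊆ P.support → H n (∑ v ∈ s, monomial v (coeff v P)) := by
    intro s
    induction s using Finset.induction_on with
    | empty =>
      intro _
      have := H_mono (Nat.zero_le n) (H_C 0)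
      simpa using this
    | insert v s hv ih =>
      intro hs
      rw [Finset.sum_insert hv]
      exact H_add (H_mon v _ n ((le_totalDegree (hs (Finset.mem_insert_self v s))).trans h))
        (ih ((Finset.subset_insert v s).trans hs))
  exact this _ subset_rfl

theorem t_LIPQ : S_LIPQ := by
  intro D q hq e j
  have h1 : (dE e q).totalDegree ≤ (D + 1) + 1 := by
    refine totalDegree_finsetSum_le fun i _ => ?_
    refine (totalDegree_mul _ _).trans ?_
    rw [totalDegree_C, zero_add]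
    exact pd_deg q (D + 2) hq i
  obtain ⟨K, hK, h2⟩ := H_deg _ _ (pd_deg _ (D + 1) h1 j)
  refine ⟨K, hK, fun k k' => ?_⟩
  obtain ⟨-, h3⟩ := h2 k k'
  have hT : 0 < 1 + nsq k + nsq k' := by
    have := nsq_nonneg' k
    have := nsq_nonneg' k'
    linarith
  refine le_of_mul_le_mul_right (h3.trans (le_of_eq ?_)) hT
  ring

end Pool.Agent.U770.DX
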